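import Pool.Agent.MTR.ZFI
import Pool.Agent.MTC.C2b.B0
import Pool.Agent.MTC.C2b.B1
import Pool.Agent.MTC.C2b.B2
import Pool.Agent.MTC.C2b.B3
import Pool.Agent.MTC.C2b.B4
import Pool.Agent.MTC.C2b.B5
import Pool.Agent.MTC.C2b.B6
import Pool.Agent.MTC.C2b.B7
import Pool.Agent.MTC.C2b.B8
import Pool.Agent.MTC.C2b.S
set_option autoImplicit false
set_option maxRecDepth 100000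
open MeasureTheory Set Metric Pool.Agent.MEIS Pool.Agent.MSQ Pool.Agent.MGE Pool.Agent.MGF Pool.Agent.PKD Pool.Agent.MTR
namespace Pool.Agent.MTC.C2b
theorem ev : (evenL F.f0 && evenL F.f1 && oddL F.f2 && evenL F.f3 && evenL F.f4 && evenL F.f5 && oddL F.f6) = true := by decide +kernel
/-- boxes -/
def L0 : List Bn := [⟨1, 2, 2, 3, 8⟩, ⟨1, 2, 3, 4, 8⟩, ⟨1, 2, 1, 2, 8⟩, ⟨1, 2, 5, 6, 8⟩, ⟨1, 2, 4, 5, 8⟩, ⟨2, 3, 0, 1, 8⟩, ⟨1, 2, 7, 8, 8⟩, ⟨2, 3, 1, 2, 8⟩, ⟨2, 3, 2, 3, 8⟩, ⟨1, 2, 6, 7, 8⟩, ⟨2, 3, 3, 4, 8⟩, ⟨1, 2, 0, 1, 8⟩, ⟨2, 3, 4, 5, 8⟩, ⟨2, 3, 5, 6, 8⟩, ⟨2, 3, 7, 8, 8⟩, ⟨2, 3, 6, 7, 8⟩, ⟨3, 4, 1, 2, 8⟩, ⟨3, 4, 2, 3, 8⟩, ⟨3, 4, 3, 4, 8⟩, ⟨3, 4, 4, 5, 8⟩]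
theorem hL0 : ∀ b ∈ L0, BoxOK 81 1000 98 1000 g false 115933 false b := by
  simp only [L0, List.forall_mem_cons, List.not_mem_nil, false_imp_iff, implies_true, and_true]
  exact ⟨⟨b0, _, rfl, rc8, h0⟩,
    ⟨b1, _, rfl, rc8, h1⟩,
    ⟨b2, _, rfl, rc8, h2⟩,
    ⟨b3, _, rfl, rc8, h3⟩,
    ⟨b4, _, rfl, rc8, h4⟩,
    ⟨b5, _, rfl, rc8, h5⟩,
    ⟨b6, _, rfl, rc8, h6⟩,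
    ⟨b7, _, rfl, rc8, h7⟩,
    ⟨b8, _, rfl, rc8, h8⟩,
    ⟨b9, _, rfl, rc8, h9⟩,
    ⟨b10, _, rfl, rc8, h10⟩,
    ⟨b11, _, rfl, rc8, h11⟩,
    ⟨b12, _, rfl, rc8, h12⟩,
    ⟨b13, _, rfl, rc8, h13⟩,
    ⟨b14, _, rfl, rc8, h14⟩,
    ⟨b15, _, rfl, rc8, h15⟩,
    ⟨b16, _, rfl, rc8, h16⟩,
    ⟨b17, _, rfl, rc8, h17⟩,
    ⟨b18, _, rfl, rc8, h18⟩,
    ⟨b19, _, rfl, rc8, h19⟩⟩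
/-- boxes -/
def L1 : List Bn := [⟨3, 4, 5, 6, 8⟩, ⟨3, 4, 6, 7, 8⟩, ⟨3, 4, 7, 8, 8⟩, ⟨4, 5, 1, 2, 8⟩, ⟨4, 5, 0, 1, 8⟩, ⟨4, 5, 2, 3, 8⟩, ⟨4, 5, 3, 4, 8⟩, ⟨4, 5, 4, 5, 8⟩, ⟨4, 5, 5, 6, 8⟩, ⟨4, 5, 6, 7, 8⟩, ⟨4, 5, 7, 8, 8⟩, ⟨5, 6, 2, 3, 8⟩, ⟨5, 6, 3, 4, 8⟩, ⟨5, 6, 4, 5, 8⟩, ⟨5, 6, 5, 6, 8⟩, ⟨5, 6, 6, 7, 8⟩, ⟨5, 6, 7, 8, 8⟩, ⟨3, 4, 0, 1, 8⟩, ⟨6, 7, 2, 3, 8⟩, ⟨6, 7, 3, 4, 8⟩]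
theorem hL1 : ∀ b ∈ L1, BoxOK 81 1000 98 1000 g false 115933 false b := by
  simp only [L1, List.forall_mem_cons, List.not_mem_nil, false_imp_iff, implies_true, and_true]
  exact ⟨⟨b20, _, rfl, rc8, h20⟩,
    ⟨b21, _, rfl, rc8, h21⟩,
    ⟨b22, _, rfl, rc8, h22⟩,
    ⟨b23, _, rfl, rc8, h23⟩,
    ⟨b24, _, rfl, rc8, h24⟩,
    ⟨b25, _, rfl, rc8, h25⟩,
    ⟨b26, _, rfl, rc8, h26⟩,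
    ⟨b27, _, rfl, rc8, h27⟩,
    ⟨b28, _, rfl, rc8, h28⟩,
    ⟨b29, _, rfl, rc8, h29⟩,
    ⟨b30, _, rfl, rc8, h30⟩,
    ⟨b31, _, rfl, rc8, h31⟩,
    ⟨b32, _, rfl, rc8, h32⟩,
    ⟨b33, _, rfl, rc8, h33⟩,
    ⟨b34, _, rfl, rc8, h34⟩,
    ⟨b35, _, rfl, rc8, h35⟩,
    ⟨b36, _, rfl, rc8, h36⟩,
    ⟨b37, _, rfl, rc8, h37⟩,
    ⟨b38, _, rfl, rc8, h38⟩,
    ⟨b39, _, rfl, rc8, h39⟩⟩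
/-- boxes -/
def L2 : List Bn := [⟨6, 7, 4, 5, 8⟩, ⟨6, 7, 5, 6, 8⟩, ⟨6, 7, 6, 7, 8⟩, ⟨6, 7, 7, 8, 8⟩, ⟨5, 6, 1, 2, 8⟩, ⟨0, 1, 0, 4, 32⟩, ⟨0, 1, 4, 8, 32⟩, ⟨0, 1, 8, 12, 32⟩, ⟨0, 1, 12, 16, 32⟩, ⟨0, 1, 16, 20, 32⟩, ⟨0, 1, 20, 24, 32⟩, ⟨0, 1, 24, 28, 32⟩, ⟨0, 1, 28, 32, 32⟩, ⟨1, 2, 0, 4, 32⟩, ⟨1, 2, 4, 8, 32⟩, ⟨1, 2, 8, 12, 32⟩, ⟨1, 2, 12, 16, 32⟩, ⟨1, 2, 16, 20, 32⟩, ⟨1, 2, 24, 28, 32⟩, ⟨1, 2, 28, 32, 32⟩]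
theorem hL2 : ∀ b ∈ L2, BoxOK 81 1000 98 1000 g false 115933 false b := by
  simp only [L2, List.forall_mem_cons, List.not_mem_nil, false_imp_iff, implies_true, and_true]
  exact ⟨⟨b40, _, rfl, rc8, h40⟩,
    ⟨b41, _, rfl, rc8, h41⟩,
    ⟨b42, _, rfl, rc8, h42⟩,
    ⟨b43, _, rfl, rc8, h43⟩,
    ⟨b44, _, rfl, rc8, h44⟩,
    ⟨b45, _, rfl, rc32, h45⟩,
    ⟨b46, _, rfl, rc32, h46⟩,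
    ⟨b47, _, rfl, rc32, h47⟩,
    ⟨b48, _, rfl, rc32, h48⟩,
    ⟨b49, _, rfl, rc32, h49⟩,
    ⟨b50, _, rfl, rc32, h50⟩,
    ⟨b51, _, rfl, rc32, h51⟩,
    ⟨b52, _, rfl, rc32, h52⟩,
    ⟨b53, _, rfl, rc32, h53⟩,
    ⟨b54, _, rfl, rc32, h54⟩,
    ⟨b55, _, rfl, rc32, h55⟩,
    ⟨b56, _, rfl, rc32, h56⟩,
    ⟨b57, _, rfl, rc32, h57⟩,
    ⟨b58, _, rfl, rc32, h58⟩,
    ⟨b59, _, rfl, rc32, h59⟩⟩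
/-- boxes -/
def L3 : List Bn := [⟨1, 2, 20, 24, 32⟩, ⟨1, 2, 2, 4, 16⟩, ⟨1, 2, 4, 6, 16⟩, ⟨1, 2, 0, 2, 16⟩, ⟨1, 2, 10, 12, 16⟩, ⟨1, 2, 6, 8, 16⟩, ⟨1, 2, 12, 14, 16⟩, ⟨1, 2, 8, 10, 16⟩, ⟨1, 2, 14, 16, 16⟩, ⟨10, 11, 1, 2, 16⟩, ⟨10, 11, 0, 1, 16⟩, ⟨11, 12, 1, 2, 16⟩, ⟨12, 13, 1, 2, 16⟩, ⟨14, 15, 3, 4, 16⟩, ⟨15, 16, 3, 4, 16⟩, ⟨12, 13, 2, 3, 16⟩, ⟨12, 13, 3, 4, 16⟩, ⟨13, 14, 2, 3, 16⟩, ⟨14, 15, 4, 5, 16⟩, ⟨11, 12, 0, 1, 16⟩]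
theorem hL3 : ∀ b ∈ L3, BoxOK 81 1000 98 1000 g false 115933 false b := by
  simp only [L3, List.forall_mem_cons, List.not_mem_nil, false_imp_iff, implies_true, and_true]
  exact ⟨⟨b60, _, rfl, rc32, h60⟩,
    ⟨b61, _, rfl, rc16, h61⟩,
    ⟨b62, _, rfl, rc16, h62⟩,
    ⟨b63, _, rfl, rc16, h63⟩,
    ⟨b64, _, rfl, rc16, h64⟩,
    ⟨b65, _, rfl, rc16, h65⟩,
    ⟨b66, _, rfl, rc16, h66⟩,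
    ⟨b67, _, rfl, rc16, h67⟩,
    ⟨b68, _, rfl, rc16, h68⟩,
    ⟨b69, _, rfl, rc16, h69⟩,
    ⟨b70, _, rfl, rc16, h70⟩,
    ⟨b71, _, rfl, rc16, h71⟩,
    ⟨b72, _, rfl, rc16, h72⟩,
    ⟨b73, _, rfl, rc16, h73⟩,
    ⟨b74, _, rfl, rc16, h74⟩,
    ⟨b75, _, rfl, rc16, h75⟩,
    ⟨b76, _, rfl, rc16, h76⟩,
    ⟨b77, _, rfl, rc16, h77⟩,
    ⟨b78, _, rfl, rc16, h78⟩,
    ⟨b79, _, rfl, rc16, h79⟩⟩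
/-- boxes -/
def L4 : List Bn := [⟨14, 15, 5, 6, 16⟩, ⟨15, 16, 4, 5, 16⟩, ⟨15, 16, 5, 6, 16⟩, ⟨14, 15, 6, 7, 16⟩, ⟨14, 15, 7, 8, 16⟩, ⟨15, 16, 6, 7, 16⟩, ⟨15, 16, 7, 8, 16⟩, ⟨14, 15, 1, 2, 16⟩, ⟨14, 15, 9, 10, 16⟩, ⟨14, 15, 8, 9, 16⟩, ⟨15, 16, 8, 9, 16⟩, ⟨15, 16, 9, 10, 16⟩, ⟨14, 15, 10, 11, 16⟩, ⟨14, 15, 11, 12, 16⟩, ⟨15, 16, 10, 11, 16⟩, ⟨15, 16, 11, 12, 16⟩, ⟨14, 15, 12, 13, 16⟩, ⟨14, 15, 13, 14, 16⟩, ⟨13, 14, 3, 4, 16⟩, ⟨15, 16, 12, 13, 16⟩]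
theorem hL4 : ∀ b ∈ L4, BoxOK 81 1000 98 1000 g false 115933 false b := by
  simp only [L4, List.forall_mem_cons, List.not_mem_nil, false_imp_iff, implies_true, and_true]
  exact ⟨⟨b80, _, rfl, rc16, h80⟩,
    ⟨b81, _, rfl, rc16, h81⟩,
    ⟨b82, _, rfl, rc16, h82⟩,
    ⟨b83, _, rfl, rc16, h83⟩,
    ⟨b84, _, rfl, rc16, h84⟩,
    ⟨b85, _, rfl, rc16, h85⟩,
    ⟨b86, _, rfl, rc16, h86⟩,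
    ⟨b87, _, rfl, rc16, h87⟩,
    ⟨b88, _, rfl, rc16, h88⟩,
    ⟨b89, _, rfl, rc16, h89⟩,
    ⟨b90, _, rfl, rc16, h90⟩,
    ⟨b91, _, rfl, rc16, h91⟩,
    ⟨b92, _, rfl, rc16, h92⟩,
    ⟨b93, _, rfl, rc16, h93⟩,
    ⟨b94, _, rfl, rc16, h94⟩,
    ⟨b95, _, rfl, rc16, h95⟩,
    ⟨b96, _, rfl, rc16, h96⟩,
    ⟨b97, _, rfl, rc16, h97⟩,
    ⟨b98, _, rfl, rc16, h98⟩,
    ⟨b99, _, rfl, rc16, h99⟩⟩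
/-- boxes -/
def L5 : List Bn := [⟨15, 16, 13, 14, 16⟩, ⟨14, 15, 14, 15, 16⟩, ⟨14, 15, 15, 16, 16⟩, ⟨15, 16, 14, 15, 16⟩, ⟨15, 16, 15, 16, 16⟩, ⟨24, 25, 1, 2, 32⟩, ⟨24, 25, 0, 1, 32⟩, ⟨27, 28, 1, 2, 32⟩, ⟨26, 27, 2, 3, 32⟩, ⟨26, 27, 3, 4, 32⟩, ⟨27, 28, 2, 3, 32⟩, ⟨27, 28, 3, 4, 32⟩, ⟨28, 29, 1, 2, 32⟩, ⟨29, 30, 1, 2, 32⟩, ⟨30, 31, 1, 2, 32⟩, ⟨25, 26, 1, 2, 32⟩, ⟨26, 27, 1, 2, 32⟩, ⟨30, 31, 3, 4, 32⟩, ⟨31, 32, 3, 4, 32⟩, ⟨28, 29, 4, 5, 32⟩]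
theorem hL5 : ∀ b ∈ L5, BoxOK 81 1000 98 1000 g false 115933 false b := by
  simp only [L5, List.forall_mem_cons, List.not_mem_nil, false_imp_iff, implies_true, and_true]
  exact ⟨⟨b100, _, rfl, rc16, h100⟩,
    ⟨b101, _, rfl, rc16, h101⟩,
    ⟨b102, _, rfl, rc16, h102⟩,
    ⟨b103, _, rfl, rc16, h103⟩,
    ⟨b104, _, rfl, rc16, h104⟩,
    ⟨b105, _, rfl, rc32, h105⟩,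
    ⟨b106, _, rfl, rc32, h106⟩,
    ⟨b107, _, rfl, rc32, h107⟩,
    ⟨b108, _, rfl, rc32, h108⟩,
    ⟨b109, _, rfl, rc32, h109⟩,
    ⟨b110, _, rfl, rc32, h110⟩,
    ⟨b111, _, rfl, rc32, h111⟩,
    ⟨b112, _, rfl, rc32, h112⟩,
    ⟨b113, _, rfl, rc32, h113⟩,
    ⟨b114, _, rfl, rc32, h114⟩,
    ⟨b115, _, rfl, rc32, h115⟩,
    ⟨b116, _, rfl, rc32, h116⟩,
    ⟨b117, _, rfl, rc32, h117⟩,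
    ⟨b118, _, rfl, rc32, h118⟩,
    ⟨b119, _, rfl, rc32, h119⟩⟩
/-- boxes -/
def L6 : List Bn := [⟨28, 29, 5, 6, 32⟩, ⟨29, 30, 4, 5, 32⟩, ⟨29, 30, 5, 6, 32⟩, ⟨30, 31, 4, 5, 32⟩, ⟨30, 31, 5, 6, 32⟩, ⟨31, 32, 4, 5, 32⟩, ⟨31, 32, 5, 6, 32⟩, ⟨31, 32, 0, 1, 32⟩, ⟨30, 31, 2, 3, 32⟩, ⟨50, 51, 1, 2, 64⟩, ⟨51, 52, 0, 1, 64⟩, ⟨51, 52, 1, 2, 64⟩, ⟨50, 51, 0, 1, 64⟩, ⟨52, 53, 0, 1, 64⟩, ⟨53, 54, 0, 1, 64⟩, ⟨52, 53, 1, 2, 64⟩, ⟨53, 54, 1, 2, 64⟩, ⟨54, 55, 0, 1, 64⟩, ⟨54, 55, 1, 2, 64⟩, ⟨55, 56, 1, 2, 64⟩]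
theorem hL6 : ∀ b ∈ L6, BoxOK 81 1000 98 1000 g false 115933 false b := by
  simp only [L6, List.forall_mem_cons, List.not_mem_nil, false_imp_iff, implies_true, and_true]
  exact ⟨⟨b120, _, rfl, rc32, h120⟩,
    ⟨b121, _, rfl, rc32, h121⟩,
    ⟨b122, _, rfl, rc32, h122⟩,
    ⟨b123, _, rfl, rc32, h123⟩,
    ⟨b124, _, rfl, rc32, h124⟩,
    ⟨b125, _, rfl, rc32, h125⟩,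
    ⟨b126, _, rfl, rc32, h126⟩,
    ⟨b127, _, rfl, rc32, h127⟩,
    ⟨b128, _, rfl, rc32, h128⟩,
    ⟨b129, _, rfl, rc64, h129⟩,
    ⟨b130, _, rfl, rc64, h130⟩,
    ⟨b131, _, rfl, rc64, h131⟩,
    ⟨b132, _, rfl, rc64, h132⟩,
    ⟨b133, _, rfl, rc64, h133⟩,
    ⟨b134, _, rfl, rc64, h134⟩,
    ⟨b135, _, rfl, rc64, h135⟩,
    ⟨b136, _, rfl, rc64, h136⟩,
    ⟨b137, _, rfl, rc64, h137⟩,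
    ⟨b138, _, rfl, rc64, h138⟩,
    ⟨b139, _, rfl, rc64, h139⟩⟩
/-- boxes -/
def L7 : List Bn := [⟨55, 56, 0, 1, 64⟩, ⟨56, 57, 0, 1, 64⟩, ⟨56, 57, 1, 2, 64⟩, ⟨57, 58, 0, 1, 64⟩, ⟨57, 58, 1, 2, 64⟩, ⟨58, 59, 1, 2, 64⟩, ⟨58, 59, 0, 1, 64⟩, ⟨59, 60, 0, 1, 64⟩, ⟨60, 61, 0, 1, 64⟩, ⟨60, 61, 1, 2, 64⟩, ⟨61, 62, 0, 1, 64⟩, ⟨61, 62, 1, 2, 64⟩, ⟨62, 63, 2, 3, 64⟩, ⟨62, 63, 3, 4, 64⟩, ⟨63, 64, 2, 3, 64⟩, ⟨62, 63, 4, 5, 64⟩, ⟨63, 64, 3, 4, 64⟩, ⟨62, 63, 5, 6, 64⟩, ⟨63, 64, 5, 6, 64⟩, ⟨63, 64, 4, 5, 64⟩]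
theorem hL7 : ∀ b ∈ L7, BoxOK 81 1000 98 1000 g false 115933 false b := by
  simp only [L7, List.forall_mem_cons, List.not_mem_nil, false_imp_iff, implies_true, and_true]
  exact ⟨⟨b140, _, rfl, rc64, h140⟩,
    ⟨b141, _, rfl, rc64, h141⟩,
    ⟨b142, _, rfl, rc64, h142⟩,
    ⟨b143, _, rfl, rc64, h143⟩,
    ⟨b144, _, rfl, rc64, h144⟩,
    ⟨b145, _, rfl, rc64, h145⟩,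
    ⟨b146, _, rfl, rc64, h146⟩,
    ⟨b147, _, rfl, rc64, h147⟩,
    ⟨b148, _, rfl, rc64, h148⟩,
    ⟨b149, _, rfl, rc64, h149⟩,
    ⟨b150, _, rfl, rc64, h150⟩,
    ⟨b151, _, rfl, rc64, h151⟩,
    ⟨b152, _, rfl, rc64, h152⟩,
    ⟨b153, _, rfl, rc64, h153⟩,
    ⟨b154, _, rfl, rc64, h154⟩,
    ⟨b155, _, rfl, rc64, h155⟩,
    ⟨b156, _, rfl, rc64, h156⟩,
    ⟨b157, _, rfl, rc64, h157⟩,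
    ⟨b158, _, rfl, rc64, h158⟩,
    ⟨b159, _, rfl, rc64, h159⟩⟩
/-- boxes -/
def L8 : List Bn := [⟨59, 60, 1, 2, 64⟩]
theorem hL8 : ∀ b ∈ L8, BoxOK 81 1000 98 1000 g false 115933 false b := by
  simp only [L8, List.forall_mem_cons, List.not_mem_nil, false_imp_iff, implies_true, and_true]
  exact ⟨b160, _, rfl, rc64, h160⟩
/-- intervals -/
def LS : List Bn := [⟨0, 1, 0, 0, 16⟩, ⟨1, 2, 0, 0, 16⟩, ⟨2, 3, 0, 0, 16⟩, ⟨3, 4, 0, 0, 16⟩, ⟨4, 5, 0, 0, 16⟩, ⟨5, 6, 0, 0, 16⟩, ⟨6, 7, 0, 0, 16⟩, ⟨7, 8, 0, 0, 16⟩, ⟨8, 9, 0, 0, 16⟩, ⟨9, 10, 0, 0, 16⟩, ⟨10, 11, 0, 0, 16⟩, ⟨11, 12, 0, 0, 16⟩, ⟨12, 13, 0, 0, 16⟩, ⟨13, 14, 0, 0, 16⟩, ⟨14, 15, 0, 0, 16⟩, ⟨15, 16, 0, 0, 16⟩]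
theorem hLS : ∀ b ∈ LS, SideOK 81 1000 98 1000 g F b := by
  simp only [LS, List.forall_mem_cons, List.not_mem_nil, false_imp_iff, implies_true, and_true]
  exact ⟨⟨s0, 7, rfl, t0⟩,
    ⟨s1, 7, rfl, t1⟩,
    ⟨s2, 7, rfl, t2⟩,
    ⟨s3, 7, rfl, t3⟩,
    ⟨s4, 7, rfl, t4⟩,
    ⟨s5, 7, rfl, t5⟩,
    ⟨s6, 7, rfl, t6⟩,
    ⟨s7, 7, rfl, t7⟩,
    ⟨s8, 7, rfl, t8⟩,
    ⟨s9, 7, rfl, t9⟩,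
    ⟨s10, 7, rfl, t10⟩,
    ⟨s11, 7, rfl, t11⟩,
    ⟨s12, 7, rfl, t12⟩,
    ⟨s13, 7, rfl, t13⟩,
    ⟨s14, 7, rfl, t14⟩,
    ⟨s15, 7, rfl, t15⟩⟩
theorem chS : chn 0 1 LS = true := by decide +kernel
/-- all boxes -/
def L : List Bn := L0 ++ L1 ++ L2 ++ L3 ++ L4 ++ L5 ++ L6 ++ L7 ++ L8
theorem hL : ∀ b ∈ L, BoxOK 81 1000 98 1000 g false 115933 false b := by
  intro b hb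
  simp only [L, List.mem_append] at hb
  rcases hb with ((((((((h | h) | h) | h) | h) | h) | h) | h) | h)
  · exact hL0 b h
  · exact hL1 b h
  · exact hL2 b h
  · exact hL3 b h
  · exact hL4 b h
  · exact hL5 b h
  · exact hL6 b h
  · exact hL7 b h
  · exact hL8 b h
theorem hq : ∀ b ∈ L, 0 < b.q := by
  have h : (L.all fun b => Nat.ble 1 b.q) = true := by decide +kernel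
  intro b hb
  exact Nat.le_of_ble_eq_true (List.all_eq_true.mp h b hb)
theorem hc : covQ 64 L 14 0 64 0 64 = true := by decide +kernel
/-- the certificate of the triangle -/
theorem cert {T : E → ℝ} {β : ℝ} (h : TrHyp T β) (hβ : inR (rgOf 81 1000 98 1000) β) :
    sF0 (FFd F) T + sF1 (FFd F) T + sF2 (FFd F) T + 24000 * payOf false 115933 / (√2 * g.D) ≤ CN T :=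
  tri_cert3 ⟨by norm_num [rgOf], by norm_num [rgOf], by norm_num [rgOf]⟩ hg 64 14 (by norm_num) L hq hc hL F (by norm_num [F]) ev tx ty LS chS hLS h hβ
end Pool.Agent.MTC.C2b
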